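import Mathlib
import Pool.Agent.Lib.MP_b76bf9_anH4.Top

/-!
# MP_b76bf9_an: it suffices to approximate the derivatives of order `k`

`W^{k,∞}(ℝⁿ)` is realised by the tuples of weak derivatives as in the frozen statement.  On a
compact set the identity is a uniform limit of bounded operators of finite rank if and only if this
holds for the derivatives of order `k` alone.
-/

set_option autoImplicit false

namespace Pool.Agent.Results.MP_b76bf9_an.TopOrder

open WkInf

/-- Let `S` be `W^{k,∞}(ℝⁿ)` (tuples of weak derivatives) and `K ⊆ S` compact.  For every `ε > 0`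
there is a bounded operator `T` of finite rank on `S` with `‖T u - u‖ < ε` for all `u ∈ K` if and
only if for every `ε > 0` there is one with `‖D^α (T u) - D^α u‖ < ε` for all `u ∈ K` and
`|α| = k`. -/
theorem result (n k : ℕ) (S : Submodule ℝ (Tup n k)) (hS : IsSobolev S)
    (K : Set (Sp S)) (hK : IsCompact K) : ApproxOn K ↔ TopApproxOn K :=
  top_iff hS K hK

end Pool.Agent.Results.MP_b76bf9_an.TopOrder
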