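import Mathlib
import Pool.Agent.Lib.MP_b76bf9_an.Stmt

/-!
# MP_b76bf9_an: finite rank approximation in `W^{k,∞}(ℝⁿ)` up to the top order derivatives

`W^{k,∞}(ℝⁿ)` is realised by the tuples of weak derivatives as in the frozen statement.  On every
compact set one bounded operator of finite rank approximates all derivatives of order less than `k`
and almost does not increase the norms of those of order `k`; it also approximates the latter if
they are uniformly continuous.
-/

set_option autoImplicit false

namespace Pool.Agent.Results.MP_b76bf9_an.UniformlySmooth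

open WkInf

/-- Let `S` be `W^{k,∞}(ℝⁿ)` (tuples of weak derivatives), `K ⊆ S` compact and `ε > 0`.  There is a
bounded operator `T` of finite rank on `S` such that for all `u ∈ K`: `‖D^α (T u)‖ ≤ ‖D^α u‖ + ε`
for all `α`; `‖D^α (T u) - D^α u‖ < ε` for `|α| < k`, and for every `α` such that `D^α v` is
uniformly continuous for all `v ∈ K`.  In particular, if the `D^α v`, `v ∈ K`, `|α| = k`, are
uniformly continuous, then `‖T u - u‖ < ε` for all `u ∈ K`. -/
theorem result (n k : ℕ) (S : Submodule ℝ (Tup n k)) (hS : IsSobolev S)
    (K : Set (Sp S)) (hK : IsCompact K) (ε : ℝ) (hε : 0 < ε) :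
    ∃ T : Sp S →L[ℝ] Sp S, FinRank T ∧ Approximates K ε T :=
  final' n k S hS K hK ε hε

end Pool.Agent.Results.MP_b76bf9_an.UniformlySmooth
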